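import Pool.Agent.NH88.EE.Elem

/-!
# The free generic completion of a labelled structure
-/

set_option autoImplicit false

namespace Pool.Agent.NH88.EE

/-- labels of the base structure -/
abbrev Inf : Type := ℕ × List Bool × List Bool

/-- The points of the free completion: the points of the base, and the points `nil u` and
`cons a p q t`, which stand for finite lists of conditions `(a, p, q)`. -/
inductive W (V : Type) : Type
  | base : V → W V
  | nil : List Bool → W V
  | cons : W V → List Bool → List Bool → W V → W V

namespace W

variable {V : Type}

/-- the size of a term -/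
def size : W V → ℕ
  | base _ => 0
  | nil _ => 0
  | cons a _ _ t => size a + size t + 1

/-- the unary word -/
def uw : W V → List Bool
  | base _ => []
  | nil u => u
  | cons _ _ _ t => uw t

open Classical in
/-- the conditions of a term -/
noncomputable def lookup : W V → W V → Option (List Bool × List Bool)
  | base _, _ => none
  | nil _, _ => none
  | cons a p q t, σ => if σ = a then some (p, q) else lookup t σ

open Classical in
/-- the word of a pair of points -/
noncomputable def word (τ σ : W V) : List Bool :=
  if τ = σ then uw τ else
    match lookup τ σ with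
    | some r => r.1
    | none => match lookup σ τ with
      | some r => r.2
      | none => []

open Classical in
/-- the information on a pair of points -/
noncomputable def info (b : V → V → Inf) : W V → W V → Inf ⊕ Inf
  | base v, base w => .inl (b v w)
  | base _, nil _ => .inr (1, [], [])
  | base _, cons _ _ _ _ => .inr (1, [], [])
  | nil u, σ => if σ = nil u then .inr (0, u, []) else .inr (1, [], [])
  | cons a p q t, σ => if σ = cons a p q t then .inr (2, p, q) else
      .inr (3, [decide (σ = a)], [decide (σ = t)])

/-- the sequence which begins with `w` and encodes `k` by its germ at infinity -/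
def bit (w : List Bool) (k : ℕ) (i : ℕ) : Bool :=
  if h : i < w.length then w[i] else decide ((k + 1) ∣ i)

theorem bit_inj {w w' : List Bool} {k k' : ℕ} (h : ∀ i, bit w k i = bit w' k' i) : k = k' := by
  have key : ∀ {w w' : List Bool} {k k' : ℕ}, (∀ i, bit w k i = bit w' k' i) →
      (k' + 1) ∣ (k + 1) := by
    intro w w' k k' h
    have h1 : ∀ m, w.length + w'.length ≤ m → (k' + 1) ∣ (k + 1) * m := by
      intro m hm
      have h2 := h ((k + 1) * m)
      have h3 : m ≤ (k + 1) * m := Nat.le_mul_of_pos_left m (Nat.succ_pos k)
      rw [bit, bit, dif_neg (by omega), dif_neg (by omega)] at h2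
      have h4 : decide ((k + 1) ∣ (k + 1) * m) = true := by simp
      rw [h4] at h2
      exact of_decide_eq_true h2.symm
    have h5 := h1 _ le_rfl
    have h6 := h1 (w.length + w'.length + 1) (Nat.le_succ _)
    rw [Nat.mul_succ] at h6
    exact (Nat.dvd_add_right h5).mp h6
  have h1 := Nat.dvd_antisymm (key h) (key fun i => (h i).symm)
  omega

theorem bit_ofFn (n : ℕ) (f : ℕ → Bool) (k i : ℕ) (hi : i < n) :
    bit (List.ofFn fun j : Fin n => f j) k i = f i := by
  rw [bit, dif_pos (by simpa using hi)]
  simp

/-- the labels -/
noncomputable def c (b : V → V → Inf) (τ σ : W V) (i : ℕ) : Bool :=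
  bit (word τ σ) (Encodable.encode (info b τ σ)) i

theorem info_of_c {V' : Type} {b : V → V → Inf} {b' : V' → V' → Inf} {τ σ : W V} {τ' σ' : W V'}
    (h : ∀ i, c b' τ' σ' i = c b τ σ i) : info b' τ' σ' = info b τ σ :=
  Encodable.encode_injective (bit_inj h)

theorem size_of_lookup {τ σ : W V} {r : List Bool × List Bool} (h : lookup τ σ = some r) :
    size σ < size τ := by
  induction τ with
  | base v => simp [lookup] at h
  | nil u => simp [lookup] at h
  | cons a p q t _ iht =>
    rw [lookup] at h
    by_cases e : σ = a
    · subst e
      simp only [size]
      omega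
    · rw [if_neg e] at h
      have := iht h
      simp only [size]
      omega

theorem lookup_eq_none {τ σ : W V} (h : size τ ≤ size σ) : lookup τ σ = none := by
  cases e : lookup τ σ with
  | none => rfl
  | some r => exact absurd (size_of_lookup e) (by omega)

/-- the term with the given conditions -/
def mk (p q : W V → List Bool) (u : List Bool) : List (W V) → W V
  | [] => nil u
  | a :: l => cons a (p a) (q a) (mk p q u l)

theorem uw_mk (p q : W V → List Bool) (u : List Bool) (l : List (W V)) : uw (mk p q u l) = u := by
  induction l with
  | nil => rfl
  | cons a l ih => exact ih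

theorem size_mk (p q : W V → List Bool) (u : List Bool) (l : List (W V)) (a : W V) (ha : a ∈ l) :
    size a < size (mk p q u l) := by
  induction l with
  | nil => simp at ha
  | cons b l ih =>
    simp only [mk, size]
    rcases List.mem_cons.mp ha with rfl | h
    · omega
    · have := ih h
      omega

theorem lookup_mk (p q : W V → List Bool) (u : List Bool) (l : List (W V)) (a : W V)
    (ha : a ∈ l) : lookup (mk p q u l) a = some (p a, q a) := by
  induction l with
  | nil => simp at ha
  | cons b l ih =>
    rw [mk, lookup]
    by_cases e : a = b
    · rw [if_pos e, e]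
    · rw [if_neg e]
      exact ih ((List.mem_cons.mp ha).resolve_left e)

/-- the completion is generic -/
theorem generic_c (b : V → V → Inf) :
    Generic (M := W V) (fun i v => c b (v 0) (v 1) i) := by
  classical
  intro n A p q r
  let τ : W V := mk (fun a => List.ofFn fun j : Fin n => p a j)
    (fun a => List.ofFn fun j : Fin n => q a j) (List.ofFn fun j : Fin n => r j) A.toList
  have hs : ∀ a ∈ A, size a < size τ := fun a ha => size_mk _ _ _ _ a (by simpa using ha)
  refine ⟨τ, fun h => absurd (hs τ h) (lt_irrefl _), fun i hi => ⟨?_, fun a ha => ⟨?_, ?_⟩⟩⟩
  · show c b τ τ i = r i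
    rw [c, word, if_pos rfl, uw_mk]
    exact bit_ofFn n r _ i hi
  · show c b τ a i = p a i
    have h1 : τ ≠ a := by rintro rfl; exact absurd (hs _ ha) (lt_irrefl _)
    have h2 : lookup τ a = some _ := lookup_mk _ _ _ _ a (by simpa using ha)
    rw [c, word, if_neg h1, h2]
    exact bit_ofFn n (p a) _ i hi
  · show c b a τ i = q a i
    have h1 : a ≠ τ := by rintro rfl; exact absurd (hs _ ha) (lt_irrefl _)
    have h2 : lookup τ a = some _ := lookup_mk _ _ _ _ a (by simpa using ha)
    rw [c, word, if_neg h1, lookup_eq_none (hs a ha).le, h2]
    exact bit_ofFn n (q a) _ i hi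

variable {V' : Type}

/-- functoriality -/
def map (g : V → V') : W V → W V'
  | base v => base (g v)
  | nil u => nil u
  | cons a p q t => cons (map g a) p q (map g t)

theorem map_injective {g : V → V'} (hg : Function.Injective g) :
    Function.Injective (map g) := by
  intro τ
  induction τ with
  | base v =>
    intro σ h
    cases σ with
    | base w =>
      simp only [map, base.injEq] at h
      rw [hg h]
    | nil u => simp [map] at h
    | cons a p q t => simp [map] at h
  | nil u =>
    intro σ h
    cases σ with
    | base w => simp [map] at h
    | nil u' =>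
      simp only [map, nil.injEq] at h
      rw [h]
    | cons a p q t => simp [map] at h
  | cons a p q t iha iht =>
    intro σ h
    cases σ with
    | base w => simp [map] at h
    | nil u' => simp [map] at h
    | cons a' p' q' t' =>
      simp only [map, cons.injEq] at h
      rw [iha h.1, iht h.2.2.2, h.2.1, h.2.2.1]

theorem uw_map (g : V → V') (τ : W V) : uw (map g τ) = uw τ := by
  induction τ with
  | base v => rfl
  | nil u => rfl
  | cons a p q t _ iht => exact iht

theorem lookup_map {g : V → V'} (hg : Function.Injective g) (τ σ : W V) :
    lookup (map g τ) (map g σ) = lookup τ σ := by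
  induction τ with
  | base v => rfl
  | nil u => rfl
  | cons a p q t _ iht =>
    rw [map, lookup, lookup, iht]
    by_cases e : σ = a
    · rw [if_pos e, if_pos (by rw [e])]
    · rw [if_neg e, if_neg fun h => e (map_injective hg h)]

theorem word_map {g : V → V'} (hg : Function.Injective g) (τ σ : W V) :
    word (map g τ) (map g σ) = word τ σ := by
  rw [word, word, lookup_map hg, lookup_map hg, uw_map]
  by_cases e : τ = σ
  · rw [if_pos e, if_pos (by rw [e])]
  · rw [if_neg e, if_neg fun h => e (map_injective hg h)]

theorem info_map {g : V → V'} (hg : Function.Injective g) {b : V → V → Inf}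
    {b' : V' → V' → Inf} (hb : ∀ v w, b' (g v) (g w) = b v w) (τ σ : W V) :
    info b' (map g τ) (map g σ) = info b τ σ := by
  have hi := map_injective hg
  cases τ with
  | base v =>
    cases σ with
    | base w => simp only [map, info, hb]
    | nil u => simp only [map, info]
    | cons a p q t => simp only [map, info]
  | nil u =>
    have e : (map g σ = nil u) ↔ σ = nil u := ⟨fun h => hi h, fun h => by rw [h]; rfl⟩
    rw [map, info, info]
    by_cases h : σ = nil u
    · rw [if_pos h, if_pos (e.mpr h)]
    · rw [if_neg h, if_neg fun h' => h (e.mp h')]
  | cons a p q t =>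
    have e : (map g σ = cons (map g a) p q (map g t)) ↔ σ = cons a p q t :=
      ⟨fun h => hi h, fun h => by rw [h]; rfl⟩
    rw [map, info, info]
    by_cases h : σ = cons a p q t
    · rw [if_pos h, if_pos (e.mpr h)]
    · rw [if_neg h, if_neg fun h' => h (e.mp h')]
      have e1 : (map g σ = map g a) ↔ σ = a := hi.eq_iff
      have e2 : (map g σ = map g t) ↔ σ = t := hi.eq_iff
      simp only [Sum.inr.injEq, Prod.mk.injEq, List.cons.injEq, decide_eq_decide, and_true,
        true_and]
      exact ⟨e1, e2⟩

theorem c_map {g : V → V'} (hg : Function.Injective g) {b : V → V → Inf}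
    {b' : V' → V' → Inf} (hb : ∀ v w, b' (g v) (g w) = b v w) (τ σ : W V) (i : ℕ) :
    c b' (map g τ) (map g σ) i = c b τ σ i := by
  rw [c, c, word_map hg, info_map hg hb]

/-- Label preserving maps map base points to base points. -/
theorem exists_base {b : V → V → Inf} {b' : V' → V' → Inf} {h : W V → W V'}
    (hh : ∀ τ σ, info b' (h τ) (h σ) = info b τ σ) :
    ∃ g : V → V', (∀ v, h (base v) = base (g v)) ∧ ∀ v w, b' (g v) (g w) = b v w := by
  have h1 : ∀ v, ∃ w, h (base v) = base w := by
    intro v
    have h2 := hh (base v) (base v)
    cases e : h (base v) with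
    | base w => exact ⟨w, rfl⟩
    | nil u => simp [e, info] at h2
    | cons a p q t => simp [e, info] at h2
  choose g hg using h1
  refine ⟨g, hg, fun v w => ?_⟩
  have h2 := hh (base v) (base w)
  rw [hg, hg] at h2
  simpa [info] using h2

/-- If the image is a base point, then so is the point. -/
theorem base_of_image {b : V → V → Inf} {b' : V' → V' → Inf} {h : W V → W V'}
    (hh : ∀ τ σ, info b' (h τ) (h σ) = info b τ σ) {τ : W V} {w : V'} (e : h τ = base w) :
    ∃ v, τ = base v := by
  have h2 := hh τ τ
  cases τ with
  | base v => exact ⟨v, rfl⟩
  | nil u => simp [e, info] at h2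
  | cons a p q t => simp [e, info] at h2

/-- A label preserving injective map which is the identity on the base is the identity. -/
theorem eq_id {b : V → V → Inf} {h : W V → W V} (hi : Function.Injective h)
    (hh : ∀ τ σ, info b (h τ) (h σ) = info b τ σ) (h0 : ∀ v, h (base v) = base v) (τ : W V) :
    h τ = τ := by
  induction τ with
  | base v => exact h0 v
  | nil u =>
    have h2 := hh (nil u) (nil u)
    cases e : h (nil u) with
    | base w => simp [e, info] at h2
    | nil u' =>
      simp [e, info] at h2
      rw [h2]
    | cons a p q t => simp [e, info] at h2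
  | cons a p q t iha iht =>
    have h2 := hh (cons a p q t) (cons a p q t)
    cases e : h (cons a p q t) with
    | base w => simp [e, info] at h2
    | nil u' => simp [e, info] at h2
    | cons a' p' q' t' =>
      simp [e, info] at h2
      obtain ⟨rfl, rfl⟩ := h2
      have ha : a ≠ cons a p' q' t := by
        intro h3
        have := congrArg size h3
        simp only [size] at this
        omega
      have ht : t ≠ cons a p' q' t := by
        intro h3
        have := congrArg size h3
        simp only [size] at this
        omega
      have ha' : a ≠ cons a' p' q' t' := by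
        intro h3
        exact ha (hi (by rw [e, iha]; exact h3))
      have ht' : t ≠ cons a' p' q' t' := by
        intro h3
        exact ht (hi (by rw [e, iht]; exact h3))
      have h3 := hh (cons a p' q' t) a
      rw [e, iha, info, info, if_neg ha, if_neg ha'] at h3
      have h4 := hh (cons a p' q' t) t
      rw [e, iht, info, info, if_neg ht, if_neg ht'] at h4
      simp only [Sum.inr.injEq, Prod.mk.injEq, List.cons.injEq, decide_eq_decide, and_true,
        true_and, iff_true] at h3 h4
      rw [← h3.1, ← h4.2]

end W

end Pool.Agent.NH88.EE
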