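import Pool.Agent.NH88.EE.Tree
import Pool.Agent.NH88.EE.Free

/-!
# The labelled structures that code the points of an analytic quasi-order
-/

set_option autoImplicit false

namespace Pool.Agent.NH88.EE

/-- base points: nodes and coloured points attached to the nodes -/
abbrev VV : Type := List ℕ ⊕ (List Bool × List ℕ × ℕ)

open Classical in
/-- labels of the base structure with the colouring `col` -/
noncomputable def bb (col : List Bool → List ℕ → ℕ → Bool) : VV → VV → Inf
  | .inl s, .inl t =>
    if s = t then (if s = [] then (0, [], []) else (1, [], [])) else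
    if ∃ n, t = n :: s then (2, [], []) else
    if ∃ r m n, s = m :: r ∧ t = n :: r ∧ m < n then (3, [], []) else (4, [], [])
  | .inr m, .inr m' =>
    if m = m' then (5, m.1, [col m.1 m.2.1 m.2.2]) else
    if m.1 = m'.1 ∧ m.2.1 = m'.2.1 ∧ m.2.2 < m'.2.2 then (6, [], []) else (4, [], [])
  | .inr m, .inl t => if t = m.2.1 then (7, [], []) else (4, [], [])
  | .inl _, .inr _ => (4, [], [])

/-- the sequence of a reversed list -/
def ev : List ℕ → ℕ → ℕ
  | [], _ => 0
  | n :: s, i => if i = s.length then n else ev s i

/-- the sequence of a reversed list of bits -/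
def eb : List Bool → ℕ → Bool
  | [], _ => false
  | b :: s, i => if i = s.length then b else eb s i

/-- a sequence which codes `x` and takes both values infinitely often -/
def code (x : ℕ → Bool) (n : ℕ) : Bool :=
  if n % 3 = 0 then false else if n % 3 = 1 then true else x (n / 3)

theorem code_two (x : ℕ → Bool) (n : ℕ) : code x (3 * n + 2) = x n := by
  rw [code, if_neg (by omega), if_neg (by omega)]
  congr 1
  omega

theorem code_bit (x : ℕ → Bool) (n : ℕ) (b : Bool) :
    code x (3 * n + (if b then 1 else 0)) = b := by
  cases b with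
  | false => rw [code, if_pos (by simp)]
  | true => rw [code, if_neg (by simp), if_pos (by simp)]

section

variable (T : ℕ → (ℕ → Bool) → (ℕ → Bool) → (ℕ → ℕ) → Prop)

/-- active pairs -/
def Act (x : ℕ → Bool) (u : List Bool) (s : List ℕ) : Prop :=
  u.length = s.length ∧ T s.length (eb u) x (ev s)

open Classical in
/-- the colouring that codes `x` -/
noncomputable def col (x : ℕ → Bool) (u : List Bool) (s : List ℕ) (n : ℕ) : Bool :=
  if u = [true] ∧ s = [] then code x n else decide (n = 0 ∧ Act T x u s)

end

/-- translation of the nodes by `z` -/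
def tr (z : ℕ → ℕ) : List ℕ → List ℕ
  | [] => []
  | n :: s => (n + z s.length) :: tr z s

theorem length_tr (z : ℕ → ℕ) (s : List ℕ) : (tr z s).length = s.length := by
  induction s with
  | nil => rfl
  | cons n s ih => simp [tr, ih]

theorem tr_injective (z : ℕ → ℕ) : Function.Injective (tr z) := by
  intro s
  induction s with
  | nil =>
    intro t h
    cases t with
    | nil => rfl
    | cons n t => simp [tr] at h
  | cons m s ih =>
    intro t h
    cases t with
    | nil => simp [tr] at h
    | cons n t =>
      simp only [tr, List.cons.injEq] at h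
      have := ih h.2
      subst this
      simp only [List.cons.injEq, and_true]
      omega

theorem tr_eq_nil {z : ℕ → ℕ} {s : List ℕ} : tr z s = [] ↔ s = [] := by
  cases s <;> simp [tr]

theorem ev_tr (z : ℕ → ℕ) (s : List ℕ) : Agree s.length (ev s + z) (ev (tr z s)) := by
  induction s with
  | nil => intro i hi; simp at hi
  | cons n s ih =>
    intro i hi
    simp only [Pi.add_apply, ev, tr, length_tr]
    by_cases e : i = s.length
    · rw [if_pos e, if_pos e, e]
    · rw [if_neg e, if_neg e]
      have := ih i (by simp only [List.length_cons] at hi; omega)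
      simpa using this

section

variable {T : ℕ → (ℕ → Bool) → (ℕ → Bool) → (ℕ → ℕ) → Prop}

/-- A branch gives an embedding. -/
theorem exists_emb (h1 : ∀ n u v s u' v' s', Agree n u u' → Agree n v v' → Agree n s s' →
      T n u v s → T n u' v' s')
    (h3 : ∀ n u v w s t, T n u v s → T n v w t → T n u w (s + t)) {x y : ℕ → Bool} {z : ℕ → ℕ}
    (hz : ∀ n, T n x y z) :
    ∃ g : VV → VV, Function.Injective g ∧ ∀ v w, bb (col T y) (g v) (g w) = bb (col T x) v w := by
  classical
  let ν : List Bool → List ℕ → ℕ → ℕ := fun u s n =>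
    if u = [true] ∧ s = [] then 3 * n + (if code x n then 1 else 0) else
      if Act T x u s then n else n + 1
  have hν : ∀ u s m n, m < n → ν u s m < ν u s n := by
    intro u s m n hmn
    simp only [ν]
    split_ifs <;> omega
  have hν' : ∀ u s m n, ν u s m < ν u s n ↔ m < n := by
    intro u s m n
    exact (show StrictMono (ν u s) from fun m n h => hν u s m n h).lt_iff_lt
  have hact : ∀ u s, Act T x u s → Act T y u (tr z s) := by
    rintro u s ⟨ha, hb⟩
    refine ⟨by rw [length_tr]; exact ha, ?_⟩
    rw [length_tr]
    exact h1 _ _ _ _ _ _ _ (Agree.refl _ _) (Agree.refl _ _) (ev_tr z s)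
      (h3 _ _ _ _ _ _ hb (hz _))
  have hcol : ∀ u s n, col T y u (tr z s) (ν u s n) = col T x u s n := by
    intro u s n
    simp only [col, tr_eq_nil]
    by_cases e : u = [true] ∧ s = []
    · rw [if_pos e, if_pos e]
      simp only [ν, if_pos e]
      exact code_bit y n (code x n)
    · rw [if_neg e, if_neg e]
      simp only [ν, if_neg e]
      by_cases ha : Act T x u s
      · rw [if_pos ha]
        simp only [ha, hact u s ha, and_true]
      · rw [if_neg ha]
        simp [ha]
  let g : VV → VV := Sum.elim (fun s => .inl (tr z s)) fun m => .inr (m.1, tr z m.2.1, ν m.1 m.2.1 m.2.2)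
  have hi := tr_injective z
  have hinj : ∀ m m' : List Bool × List ℕ × ℕ,
      ((m.1, tr z m.2.1, ν m.1 m.2.1 m.2.2) : List Bool × List ℕ × ℕ) =
        (m'.1, tr z m'.2.1, ν m'.1 m'.2.1 m'.2.2) ↔ m = m' := by
    rintro ⟨u, s, n⟩ ⟨u', s', n'⟩
    constructor
    · intro h
      simp only [Prod.mk.injEq] at h
      obtain ⟨rfl, h2, h4⟩ := h
      have := hi h2
      subst this
      have h5 : n = n' := by
        by_contra hne
        rcases Nat.lt_or_gt_of_ne hne with h6 | h6
        · exact absurd h4 (hν _ _ _ _ h6).ne
        · exact absurd h4 (hν _ _ _ _ h6).ne'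
      rw [h5]
    · rintro h
      rw [h]
  refine ⟨g, ?_, ?_⟩
  · rintro (s | m) (t | m') h
    · simp only [g, Sum.elim_inl, Sum.inl.injEq] at h
      rw [hi h]
    · simp [g] at h
    · simp [g] at h
    · simp only [g, Sum.elim_inr, Sum.inr.injEq] at h
      rw [(hinj m m').mp h]
  · rintro (s | m) (t | m')
    · simp only [g, Sum.elim_inl, bb, hi.eq_iff, tr_eq_nil]
      have e1 : (∃ n, tr z t = n :: tr z s) ↔ ∃ n, t = n :: s := by
        constructor
        · rintro ⟨n, hn⟩
          cases t with
          | nil => simp [tr] at hn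
          | cons m r =>
            simp only [tr, List.cons.injEq] at hn
            exact ⟨m, by rw [hi hn.2]⟩
        · rintro ⟨n, rfl⟩
          exact ⟨_, rfl⟩
      have e2 : (∃ r m n, tr z s = m :: r ∧ tr z t = n :: r ∧ m < n) ↔
          ∃ r m n, s = m :: r ∧ t = n :: r ∧ m < n := by
        constructor
        · rintro ⟨r, m, n, h4, h5, h6⟩
          cases s with
          | nil => simp [tr] at h4
          | cons m' s =>
            cases t with
            | nil => simp [tr] at h5
            | cons n' t =>
              simp only [tr, List.cons.injEq] at h4 h5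
              have h7 : s = t := hi (h4.2.trans h5.2.symm)
              subst h7
              refine ⟨s, m', n', rfl, rfl, ?_⟩
              omega
        · rintro ⟨r, m, n, rfl, rfl, h6⟩
          exact ⟨tr z r, m + z r.length, n + z r.length, rfl, rfl, by omega⟩
      rw [if_congr e1 rfl rfl, if_congr e2 rfl rfl]
    · simp only [g, Sum.elim_inl, Sum.elim_inr, bb]
    · simp only [g, Sum.elim_inl, Sum.elim_inr, bb, hi.eq_iff]
    · simp only [g, Sum.elim_inr, bb]
      by_cases e : m = m'
      · subst e
        rw [if_pos rfl, if_pos rfl, hcol]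
      · rw [if_neg e, if_neg fun h => e ((hinj m m').mp h)]
        have e1 : (m.1 = m'.1 ∧ tr z m.2.1 = tr z m'.2.1 ∧
            ν m.1 m.2.1 m.2.2 < ν m'.1 m'.2.1 m'.2.2) ↔
            (m.1 = m'.1 ∧ m.2.1 = m'.2.1 ∧ m.2.2 < m'.2.2) := by
          constructor
          · rintro ⟨ha, hb, hc⟩
            refine ⟨ha, hi hb, ?_⟩
            rw [ha, hi hb] at hc
            exact (hν' _ _ _ _).mp hc
          · rintro ⟨ha, hb, hc⟩
            refine ⟨ha, by rw [hb], ?_⟩
            rw [ha, hb]
            exact (hν' _ _ _ _).mpr hc
        rw [if_congr e1 rfl rfl]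

/-- the action of a label preserving map on the nodes and on the coloured points -/
theorem exists_node_map {c c' : List Bool → List ℕ → ℕ → Bool} {g : VV → VV}
    (hi : Function.Injective g) (hg : ∀ v w, bb c' (g v) (g w) = bb c v w) :
    ∃ (f : List ℕ → List ℕ) (k : List Bool → List ℕ → ℕ → ℕ),
      (∀ s, g (.inl s) = .inl (f s)) ∧ f [] = [] ∧
      (∀ n s, ∃ m, f (n :: s) = m :: f s) ∧
      (∀ r m n, m < n → ∃ m' n', m' < n' ∧ f (m :: r) = m' :: f r ∧ f (n :: r) = n' :: f r) ∧
      (∀ u s n, g (.inr (u, s, n)) = .inr (u, f s, k u s n)) ∧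
      (∀ u s n, c' u (f s) (k u s n) = c u s n) ∧
      (∀ u s m n, m < n → k u s m < k u s n) := by
  classical
  have h1 : ∀ s, ∃ t, g (.inl s) = .inl t := by
    intro s
    cases e : g (.inl s) with
    | inl t => exact ⟨t, rfl⟩
    | inr m =>
      have := hg (.inl s) (.inl s)
      rw [e] at this
      simp only [bb, if_true] at this
      split_ifs at this <;> simp at this
  choose f hf using h1
  have h2 : ∀ m : List Bool × List ℕ × ℕ, ∃ m', g (.inr m) = .inr m' := by
    intro m
    cases e : g (.inr m) with
    | inr m' => exact ⟨m', rfl⟩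
    | inl t =>
      have := hg (.inr m) (.inr m)
      rw [e] at this
      simp only [bb, if_true] at this
      split_ifs at this <;> simp at this
  choose k hk using h2
  have hfi : ∀ s t, f s = f t ↔ s = t := by
    intro s t
    refine ⟨fun h => ?_, fun h => by rw [h]⟩
    have : g (.inl s) = g (.inl t) := by rw [hf, hf, h]
    exact Sum.inl_injective (hi this)
  have hki : ∀ m m', k m = k m' ↔ m = m' := by
    intro s t
    refine ⟨fun h => ?_, fun h => by rw [h]⟩
    have : g (.inr s) = g (.inr t) := by rw [hk, hk, h]
    exact Sum.inr_injective (hi this)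
  have hnode : ∀ s t, bb c' (.inl (f s)) (.inl (f t)) = bb c (.inl s) (.inl t) := by
    intro s t
    rw [← hf, ← hf]
    exact hg _ _
  have hmark : ∀ m m', bb c' (.inr (k m)) (.inr (k m')) = bb c (.inr m) (.inr m') := by
    intro s t
    rw [← hk, ← hk]
    exact hg _ _
  have hatt : ∀ m t, bb c' (.inr (k m)) (.inl (f t)) = bb c (.inr m) (.inl t) := by
    intro s t
    rw [← hk, ← hf]
    exact hg _ _
  have hdiag : ∀ m, (k m).1 = m.1 ∧ c' (k m).1 (k m).2.1 (k m).2.2 = c m.1 m.2.1 m.2.2 := by
    intro m
    have := hmark m m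
    simp only [bb, if_true, Prod.mk.injEq, List.cons.injEq, and_true, true_and] at this
    exact this
  have hatt' : ∀ m, (k m).2.1 = f m.2.1 := by
    intro m
    have := hatt m m.2.1
    simp only [bb, if_true] at this
    split_ifs at this with h
    · exact h.symm
    · simp at this
  have hchild : ∀ n s, ∃ m, f (n :: s) = m :: f s := by
    intro n s
    have h3 := hnode s (n :: s)
    have h4 : s ≠ n :: s := fun h => by
      have := congrArg List.length h
      simp at this
    simp only [bb, hfi, if_neg h4] at h3
    rw [if_pos (⟨n, rfl⟩ : ∃ n', n :: s = n' :: s)] at h3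
    split_ifs at h3 with h5 h6
    · exact h5
    · simp at h3
    · simp at h3
  refine ⟨f, fun u s n => (k (u, s, n)).2.2, hf, ?_, hchild, ?_, ?_, ?_, ?_⟩
  · have h3 := hnode [] []
    simp only [bb, if_true] at h3
    split_ifs at h3 with h4
    · exact h4
    · simp at h3
  · intro r m n hmn
    obtain ⟨m', hm'⟩ := hchild m r
    obtain ⟨n', hn'⟩ := hchild n r
    refine ⟨m', n', ?_, hm', hn'⟩
    have h3 := hnode (m :: r) (n :: r)
    have h4 : m :: r ≠ n :: r := by
      intro h
      simp only [List.cons.injEq, and_true] at h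
      omega
    have h5 : ¬ ∃ k, n :: r = k :: m :: r := by
      rintro ⟨k, hk⟩
      have := congrArg List.length hk
      simp at this
    simp only [bb, hfi, if_neg h4, if_neg h5] at h3
    rw [if_pos (⟨r, m, n, rfl, rfl, hmn⟩ : ∃ r' m' n', m :: r = m' :: r' ∧ n :: r = n' :: r' ∧
      m' < n')] at h3
    split_ifs at h3 with h6 h7
    · simp at h3
    · obtain ⟨r', a, b, ha, hb, hab⟩ := h7
      rw [hm', List.cons.injEq] at ha
      rw [hn', List.cons.injEq] at hb
      omega
    · simp at h3
  · intro u s n
    rw [hk]
    congr 1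
    refine Prod.ext (hdiag (u, s, n)).1 (Prod.ext (hatt' (u, s, n)) rfl)
  · intro u s n
    have h3 := (hdiag (u, s, n)).2
    have h4 := hatt' (u, s, n)
    have h5 := (hdiag (u, s, n)).1
    rw [h4, h5] at h3
    exact h3
  · intro u s m n hmn
    have h3 := hmark (u, s, m) (u, s, n)
    have h4 : ((u, s, m) : List Bool × List ℕ × ℕ) ≠ (u, s, n) := by
      intro h
      simp only [Prod.mk.injEq, true_and] at h
      omega
    simp only [bb, hki, if_neg h4] at h3
    simp only [hmn, and_true, if_true] at h3
    split_ifs at h3 with h5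
    · exact h5.2.2
    · simp at h3

/-- the reversed list of the first `n` values -/
def pre (x : ℕ → Bool) : ℕ → List Bool
  | 0 => []
  | n + 1 => x n :: pre x n

theorem length_pre (x : ℕ → Bool) (n : ℕ) : (pre x n).length = n := by
  induction n with
  | zero => rfl
  | succ n ih => simp [pre, ih]

theorem eb_pre (x : ℕ → Bool) (n : ℕ) : Agree n (eb (pre x n)) x := by
  induction n with
  | zero => intro i hi; omega
  | succ n ih =>
    intro i hi
    simp only [pre, eb, length_pre]
    by_cases e : i = n
    · rw [if_pos e, e]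
    · rw [if_neg e]
      exact ih i (by omega)

/-- A label preserving map gives a branch. -/
theorem exists_branch (h1 : ∀ n u v s u' v' s', Agree n u u' → Agree n v v' → Agree n s s' →
      T n u v s → T n u' v' s') (h2 : ∀ n u s, T n u u s) {x y : ℕ → Bool} {g : VV → VV}
    (hi : Function.Injective g) (hg : ∀ v w, bb (col T y) (g v) (g w) = bb (col T x) v w) :
    ∃ z, ∀ n, T n x y z := by
  classical
  obtain ⟨f, k, -, hf0, hf1, -, -, hc, -⟩ := exists_node_map hi hg
  choose m hm using hf1
  let o : ℕ → List ℕ := fun n => List.replicate n 0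
  have ho : ∀ n, (o n).length = n := fun n => List.length_replicate
  have hfo : ∀ n, (f (o n)).length = n := by
    intro n
    induction n with
    | zero => simp [o, hf0]
    | succ n ih =>
      have : o (n + 1) = 0 :: o n := rfl
      rw [this, hm, List.length_cons, ih]
  refine ⟨fun i => m 0 (o i), fun n => ?_⟩
  have hev : Agree n (ev (f (o n))) fun i => m 0 (o i) := by
    induction n with
    | zero => intro i hi; omega
    | succ n ih =>
      intro i hi
      have : o (n + 1) = 0 :: o n := rfl
      rw [this, hm, ev, hfo]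
      by_cases e : i = n
      · rw [if_pos e, e]
      · rw [if_neg e]
        exact ih i (by omega)
  have hact : Act T x (pre x n) (o n) := by
    refine ⟨by rw [length_pre, ho], ?_⟩
    rw [ho]
    exact h1 _ _ _ _ _ _ _ (eb_pre x n).symm (Agree.refl _ _) (Agree.refl _ _)
      (h2 n x (ev (o n)))
  have hne : ∀ s : List ℕ, s.length = n → ¬ (pre x n = [true] ∧ s = []) := by
    rintro s hs ⟨h4, rfl⟩
    have := congrArg List.length h4
    rw [length_pre] at this
    simp at this hs
    omega
  have h4 := hc (pre x n) (o n) 0
  rw [col, if_neg (hne _ (hfo n)), col, if_neg (hne _ (ho n))] at h4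
  simp only [hact, true_and, decide_true, decide_eq_true_eq] at h4
  have h5 := h4.2.2
  rw [hfo] at h5
  exact h1 _ _ _ _ _ _ _ (eb_pre x n) (Agree.refl _ _) hev h5

theorem strictMono_surj {k : ℕ → ℕ} (h : ∀ m n, m < n → k m < k n) (hs : ∀ n, ∃ m, k m = n)
    (n : ℕ) : k n = n := by
  have hmono : StrictMono k := fun m n h' => h m n h'
  have h1 : ∀ n, n ≤ k n := hmono.id_le
  induction n using Nat.strong_induction_on with
  | _ n ih =>
    obtain ⟨m, hm⟩ := hs n
    have h2 : m ≤ n := hm ▸ h1 m
    rcases Nat.lt_or_ge m n with h3 | h3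
    · have := ih m h3
      omega
    · have : m = n := le_antisymm h2 h3
      rw [this] at hm
      exact hm

/-- The structures are rigid, and isomorphic structures code the same point. -/
theorem rigid {x y : ℕ → Bool} {g : VV → VV} (hi : Function.Injective g)
    (hs : Function.Surjective g) (hg : ∀ v w, bb (col T y) (g v) (g w) = bb (col T x) v w) :
    x = y ∧ ∀ v, g v = v := by
  classical
  obtain ⟨f, k, hf, hf0, hf1, hf2, hk, hc, hkm⟩ := exists_node_map hi hg
  have hfs : ∀ t, ∃ s, f s = t := by
    intro t
    obtain ⟨v, hv⟩ := hs (.inl t)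
    rcases v with s | ⟨u, s, n⟩
    · rw [hf] at hv
      exact ⟨s, Sum.inl_injective hv⟩
    · rw [hk] at hv
      simp at hv
  have hfi : ∀ s t, f s = f t → s = t := by
    intro s t h
    have : g (.inl s) = g (.inl t) := by rw [hf, hf, h]
    exact Sum.inl_injective (hi this)
  have hfid : ∀ s, f s = s := by
    intro s
    induction s with
    | nil => exact hf0
    | cons n s ih =>
      choose m hm using fun n => hf1 n s
      rw [hm, ih]
      congr 1
      refine strictMono_surj (k := m) ?_ ?_ n
      · intro a b hab
        obtain ⟨a', b', h3, h4, h5⟩ := hf2 s a b hab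
        rw [hm, List.cons.injEq] at h4 h5
        omega
      · intro a
        obtain ⟨t, ht⟩ := hfs (a :: f s)
        cases t with
        | nil => rw [hf0] at ht; simp at ht
        | cons b r =>
          obtain ⟨b', hb'⟩ := hf1 b r
          rw [hb', List.cons.injEq] at ht
          have := hfi _ _ ht.2
          subst this
          refine ⟨b, ?_⟩
          rw [hm, List.cons.injEq] at hb'
          omega
  have hkid : ∀ u s n, k u s n = n := by
    intro u s n
    refine strictMono_surj (k := k u s) (fun a b hab => hkm u s a b hab) ?_ n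
    intro a
    obtain ⟨v, hv⟩ := hs (.inr (u, s, a))
    rcases v with t | ⟨u', s', n'⟩
    · rw [hf] at hv
      simp at hv
    · rw [hk, hfid] at hv
      simp only [Sum.inr.injEq, Prod.mk.injEq] at hv
      obtain ⟨rfl, rfl, h3⟩ := hv
      exact ⟨n', h3⟩
  refine ⟨?_, ?_⟩
  · funext n
    have h3 := hc [true] [] (3 * n + 2)
    rw [hkid, hfid, col, col, if_pos ⟨rfl, rfl⟩, if_pos ⟨rfl, rfl⟩, code_two, code_two] at h3
    exact h3.symm
  · rintro (s | ⟨u, s, n⟩)
    · rw [hf, hfid]
    · rw [hk, hfid, hkid]

end

end Pool.Agent.NH88.EE
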