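import Mathlib

/-!
# Embeddings between generic labelled structures are elementary
-/

set_option autoImplicit false

open FirstOrder FirstOrder.Language

namespace Pool.Agent.NH88.EE

/-- the language with the binary relation symbols `R 0, R 1, …` -/
abbrev LL : FirstOrder.Language :=
  FirstOrder.Language.mk (fun _ => PEmpty.{1}) (fun n => {i : ℕ // (fun _ : ℕ => 2) i = n})

/-- the structure given by a family of binary relations -/
@[reducible] def strOf {M : Type} (u : ℕ → (Fin 2 → M) → Bool) : LL.Structure M :=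
  @FirstOrder.Language.Structure.mk LL M (fun f _ => PEmpty.elim f)
    (fun r xs => u (Subtype.val r) (xs ∘ Fin.cast (Subtype.property r)) = true)

/-- all finite approximations of extensions by one point are realized -/
def Generic {M : Type} (u : ℕ → (Fin 2 → M) → Bool) : Prop :=
  ∀ (n : ℕ) (A : Finset M) (p q : M → ℕ → Bool) (r : ℕ → Bool), ∃ m, m ∉ A ∧
    ∀ i < n, u i ![m, m] = r i ∧ ∀ a ∈ A, u i ![m, a] = p a i ∧ u i ![a, m] = q a i

variable {M M' : Type}

/-- tuples satisfy the same atomic formulas with the first `N` relation symbols -/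
structure SameType (u : ℕ → (Fin 2 → M) → Bool) (u' : ℕ → (Fin 2 → M') → Bool) (N : ℕ)
    {ι : Type} (w : ι → M) (w' : ι → M') : Prop where
  eq : ∀ i j, w i = w j ↔ w' i = w' j
  rel : ∀ n < N, ∀ i j, u n ![w i, w j] = u' n ![w' i, w' j]

variable {u : ℕ → (Fin 2 → M) → Bool} {u' : ℕ → (Fin 2 → M') → Bool}

theorem SameType.symm {N : ℕ} {ι : Type} {w : ι → M} {w' : ι → M'} (h : SameType u u' N w w') :
    SameType u' u N w' w :=
  ⟨fun i j => (h.eq i j).symm, fun n hn i j => (h.rel n hn i j).symm⟩

theorem SameType.mono {N N' : ℕ} {ι : Type} {w : ι → M} {w' : ι → M'}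
    (h : SameType u u' N w w') (hN : N' ≤ N) : SameType u u' N' w w' :=
  ⟨h.eq, fun n hn i j => h.rel n (hn.trans_le hN) i j⟩

/-- one step of the back-and-forth argument -/
theorem SameType.extend [DecidableEq M'] (hu' : Generic u') {N : ℕ} {ι : Type} [Finite ι]
    {w : ι → M} {w' : ι → M'} (h : SameType u u' N w w') (a : M) :
    ∃ a' : M', SameType u u' N (fun o : Option ι => o.elim a w) (fun o => o.elim a' w') := by
  classical
  haveI := Fintype.ofFinite ι
  by_cases ha : ∃ i, w i = a
  · obtain ⟨i, rfl⟩ := ha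
    refine ⟨w' i, ⟨?_, ?_⟩⟩
    · rintro (_ | j) (_ | l)
      · simp
      · exact h.eq i l
      · exact h.eq j i
      · exact h.eq j l
    · rintro n hn (_ | j) (_ | l)
      · exact h.rel n hn i i
      · exact h.rel n hn i l
      · exact h.rel n hn j i
      · exact h.rel n hn j l
  · -- a partial inverse of `w'`
    let g : M' → M := fun m' => if hm : ∃ i, w' i = m' then w hm.choose else a
    have hg : ∀ i, g (w' i) = w i := by
      intro i
      have hm : ∃ j, w' j = w' i := ⟨i, rfl⟩
      simp only [g, dif_pos hm]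
      exact (h.eq _ _).mpr hm.choose_spec
    obtain ⟨a', ha', h1⟩ := hu' N (Finset.univ.image w') (fun m' i => u i ![a, g m'])
      (fun m' i => u i ![g m', a]) (fun i => u i ![a, a])
    have h2 : ∀ i, w' i ≠ a' := by
      rintro i rfl
      exact ha' (Finset.mem_image_of_mem _ (Finset.mem_univ i))
    refine ⟨a', ⟨?_, ?_⟩⟩
    · rintro (_ | j) (_ | l)
      · simp
      · simp only [Option.elim_none, Option.elim_some]
        exact ⟨fun e => absurd ⟨l, e.symm⟩ ha, fun e => absurd e.symm (h2 l)⟩
      · simp only [Option.elim_none, Option.elim_some]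
        exact ⟨fun e => absurd ⟨j, e⟩ ha, fun e => absurd e (h2 j)⟩
      · exact h.eq j l
    · rintro n hn (_ | j) (_ | l)
      · exact (h1 n hn).1.symm
      · have := ((h1 n hn).2 (w' l) (Finset.mem_image_of_mem _ (Finset.mem_univ l))).1
        simp only [hg] at this
        exact this.symm
      · have := ((h1 n hn).2 (w' j) (Finset.mem_image_of_mem _ (Finset.mem_univ j))).2
        simp only [hg] at this
        exact this.symm
      · exact h.rel n hn j l

theorem term_eq_var {α : Type} (t : LL.Term α) : ∃ i, t = Term.var i := by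
  cases t with
  | var i => exact ⟨i, rfl⟩
  | func f _ => exact PEmpty.elim f

theorem pair_eq {M : Type} (f : Fin 2 → M) : f = ![f 0, f 1] := by
  funext i
  fin_cases i <;> rfl

/-- Tuples with the same atomic type up to `N` satisfy the same formulas `φ`, for suitable `N`. -/
theorem exists_bound (hu : Generic u) (hu' : Generic u') {α : Type} [Finite α] {k : ℕ}
    (φ : LL.BoundedFormula α k) :
    ∃ N, ∀ (v : α → M) (xs : Fin k → M) (v' : α → M') (xs' : Fin k → M'),
      SameType u u' N (Sum.elim v xs) (Sum.elim v' xs') →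
      ((@BoundedFormula.Realize LL M (strOf u) α k φ v xs) ↔
        (@BoundedFormula.Realize LL M' (strOf u') α k φ v' xs')) := by
  classical
  induction φ with
  | falsum => exact ⟨0, fun _ _ _ _ _ => Iff.rfl⟩
  | equal t₁ t₂ =>
    obtain ⟨i, rfl⟩ := term_eq_var t₁
    obtain ⟨j, rfl⟩ := term_eq_var t₂
    exact ⟨0, fun v xs v' xs' h => h.eq i j⟩
  | rel R ts =>
    refine ⟨R.1 + 1, fun v xs v' xs' h => ?_⟩
    obtain ⟨i, hi⟩ := term_eq_var (ts (Fin.cast R.2 0))
    obtain ⟨j, hj⟩ := term_eq_var (ts (Fin.cast R.2 1))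
    have h1 := h.rel R.1 (Nat.lt_succ_self _) i j
    have h2 : ((fun i => @Term.realize LL M (strOf u) _ (Sum.elim v xs) (ts i)) ∘
        Fin.cast R.2 : Fin 2 → M) = ![(Sum.elim v xs) i, (Sum.elim v xs) j] := by
      rw [pair_eq ((fun i => @Term.realize LL M (strOf u) _ (Sum.elim v xs) (ts i)) ∘
        Fin.cast R.2 : Fin 2 → M)]
      simp only [Function.comp_apply]
      rw [hi, hj]
      rfl
    have h3 : ((fun i => @Term.realize LL M' (strOf u') _ (Sum.elim v' xs') (ts i)) ∘
        Fin.cast R.2 : Fin 2 → M') = ![(Sum.elim v' xs') i, (Sum.elim v' xs') j] := by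
      rw [pair_eq ((fun i => @Term.realize LL M' (strOf u') _ (Sum.elim v' xs') (ts i)) ∘
        Fin.cast R.2 : Fin 2 → M')]
      simp only [Function.comp_apply]
      rw [hi, hj]
      rfl
    show (u R.1 ((fun i => @Term.realize LL M (strOf u) _ (Sum.elim v xs) (ts i)) ∘
        Fin.cast R.2) = true) ↔ (u' R.1 ((fun i => @Term.realize LL M' (strOf u') _
          (Sum.elim v' xs') (ts i)) ∘ Fin.cast R.2) = true)
    rw [h2, h3, h1]
  | imp f₁ f₂ ih₁ ih₂ =>
    obtain ⟨N₁, h₁⟩ := ih₁
    obtain ⟨N₂, h₂⟩ := ih₂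
    refine ⟨max N₁ N₂, fun v xs v' xs' h => ?_⟩
    have e₁ := h₁ v xs v' xs' (h.mono (le_max_left _ _))
    have e₂ := h₂ v xs v' xs' (h.mono (le_max_right _ _))
    exact imp_congr e₁ e₂
  | @all n f ih =>
    obtain ⟨N, h1⟩ := ih
    refine ⟨N, fun v xs v' xs' h => ?_⟩
    -- reindexing
    have key : ∀ (a : M) (a' : M'),
        SameType u u' N (fun o : Option (α ⊕ Fin n) => o.elim a (Sum.elim v xs))
          (fun o => o.elim a' (Sum.elim v' xs')) →
        SameType u u' N (Sum.elim v (Fin.snoc xs a : Fin (n + 1) → M))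
          (Sum.elim v' (Fin.snoc xs' a' : Fin (n + 1) → M')) := by
      intro a a' hh
      let ρ : α ⊕ Fin (n + 1) → Option (α ⊕ Fin n) :=
        Sum.elim (fun i => some (Sum.inl i)) (Fin.lastCases none fun i => some (Sum.inr i))
      have e1 : (Sum.elim v (Fin.snoc xs a : Fin (n + 1) → M)) =
          fun i => (ρ i).elim a (Sum.elim v xs) := by
        funext i
        rcases i with i | i
        · rfl
        · refine Fin.lastCases ?_ (fun j => ?_) i
          · simp [ρ]
          · simp [ρ]
      have e2 : (Sum.elim v' (Fin.snoc xs' a' : Fin (n + 1) → M')) =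
          fun i => (ρ i).elim a' (Sum.elim v' xs') := by
        funext i
        rcases i with i | i
        · rfl
        · refine Fin.lastCases ?_ (fun j => ?_) i
          · simp [ρ]
          · simp [ρ]
      rw [e1, e2]
      exact ⟨fun i j => hh.eq (ρ i) (ρ j), fun m hm i j => hh.rel m hm (ρ i) (ρ j)⟩
    constructor
    · intro hall a'
      obtain ⟨a, ha⟩ := h.symm.extend hu a'
      exact (h1 _ _ _ _ (key a a' ha.symm)).mp (hall a)
    · intro hall a
      obtain ⟨a', ha'⟩ := h.extend hu' a
      exact (h1 _ _ _ _ (key a a' ha')).mpr (hall a')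

/-- Embeddings between generic structures are elementary. -/
theorem elementary (hu : Generic u) (hu' : Generic u') (h : M → M')
    (hinj : Function.Injective h) (hp : ∀ i x y, u' i ![h x, h y] = u i ![x, y]) :
    Nonempty (@ElementaryEmbedding LL M M' (strOf u) (strOf u')) := by
  refine ⟨@ElementaryEmbedding.mk LL M M' (strOf u) (strOf u') h ?_⟩
  intro n φ x
  obtain ⟨N, hN⟩ := exists_bound hu hu' φ
  have := hN x default (h ∘ x) default ⟨?_, ?_⟩
  · exact this.symm
  · rintro (i | i) (j | j)
    · exact hinj.eq_iff.symm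
    · exact j.elim0
    · exact i.elim0
    · exact i.elim0
  · rintro m - (i | i) (j | j)
    · exact (hp m (x i) (x j)).symm
    · exact j.elim0
    · exact i.elim0
    · exact i.elim0

/-- Elementary embeddings are injective and preserve the relations. -/
theorem of_elementary (h : @ElementaryEmbedding LL M M' (strOf u) (strOf u')) :
    ∃ g : M → M', Function.Injective g ∧ ∀ i x y, u' i ![g x, g y] = u i ![x, y] := by
  letI := strOf u
  letI := strOf u'
  refine ⟨h, h.injective, fun i x y => ?_⟩
  have h1 : (Structure.RelMap (L := LL) (M := M') (⟨i, rfl⟩ : LL.Relations 2) (h ∘ ![x, y])) ↔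
      (Structure.RelMap (L := LL) (M := M) (⟨i, rfl⟩ : LL.Relations 2) ![x, y]) :=
    h.map_rel _ _
  have h2 : (h ∘ ![x, y]) = ![h x, h y] := by
    funext j
    fin_cases j <;> rfl
  rw [h2] at h1
  have h3 : (u' i ![h x, h y] = true) ↔ (u i ![x, y] = true) := h1
  rw [Bool.eq_iff_iff]
  exact h3

end Pool.Agent.NH88.EE
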