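import Pool.Agent.NH88.EE.Base

/-!
# Analytic quasi-orders and elementary embeddability: the final assembly
-/

set_option autoImplicit false

open MeasureTheory

namespace Pool.Agent.NH88.EE

namespace W

/-- an injective coding -/
def enc {V : Type} [Encodable V] : W V → ℕ
  | base v => 3 * Encodable.encode v
  | nil u => 3 * Encodable.encode u + 1
  | cons a p q t => 3 * Nat.pair (enc a) (Nat.pair (Encodable.encode (p, q)) (enc t)) + 2

theorem enc_injective {V : Type} [Encodable V] : Function.Injective (enc (V := V)) := by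
  intro τ
  induction τ with
  | base v =>
    intro σ h
    cases σ with
    | base w =>
      simp only [enc] at h
      have : Encodable.encode v = Encodable.encode w := by omega
      rw [Encodable.encode_injective this]
    | nil u => simp only [enc] at h; omega
    | cons a p q t => simp only [enc] at h; omega
  | nil u =>
    intro σ h
    cases σ with
    | base w => simp only [enc] at h; omega
    | nil u' =>
      simp only [enc] at h
      have : Encodable.encode u = Encodable.encode u' := by omega
      rw [Encodable.encode_injective this]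
    | cons a p q t => simp only [enc] at h; omega
  | cons a p q t iha iht =>
    intro σ h
    cases σ with
    | base w => simp only [enc] at h; omega
    | nil u' => simp only [enc] at h; omega
    | cons a' p' q' t' =>
      simp only [enc] at h
      have h1 : Nat.pair (enc a) (Nat.pair (Encodable.encode (p, q)) (enc t)) =
        Nat.pair (enc a') (Nat.pair (Encodable.encode (p', q')) (enc t')) := by omega
      rw [Nat.pair_eq_pair, Nat.pair_eq_pair] at h1
      obtain ⟨h2, h3, h4⟩ := h1
      have h5 := Encodable.encode_injective h3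
      rw [Prod.mk.injEq] at h5
      rw [iha h2, iht h4, h5.1, h5.2]

instance {V : Type} [Encodable V] : Countable (W V) := enc_injective.countable

instance {V : Type} : Infinite (W V) :=
  Infinite.of_injective (fun u : List Bool => (nil u : W V)) fun u v h => by
    simpa using h

end W

/-- an enumeration of the points -/
noncomputable def enum : W VV ≃ ℕ := Classical.choice nonempty_equiv_of_countable

section

variable (T : ℕ → (ℕ → Bool) → (ℕ → Bool) → (ℕ → ℕ) → Prop)

/-- the structure on `ℕ` which codes `x` -/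
noncomputable def uu (x : ℕ → Bool) (i : ℕ) (v : Fin 2 → ℕ) : Bool :=
  W.c (bb (col T x)) (enum.symm (v 0)) (enum.symm (v 1)) i

end

/-- embeddings -/
def Emb (u v : ℕ → (Fin 2 → ℕ) → Bool) : Prop :=
  ∃ h : ℕ → ℕ, Function.Injective h ∧ ∀ i x y, v i ![h x, h y] = u i ![x, y]

theorem emb_iff {u v : ℕ → (Fin 2 → ℕ) → Bool} (hu : Generic u) (hv : Generic v) :
    Nonempty (@FirstOrder.Language.ElementaryEmbedding LL ℕ ℕ (strOf u) (strOf v)) ↔ Emb u v :=
  ⟨fun ⟨h⟩ => of_elementary h, fun ⟨h, h1, h2⟩ => elementary hu hv h h1 h2⟩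

/-- transport of a structure -/
def tp (u : ℕ → (Fin 2 → ℕ) → Bool) (p : ℕ → ℕ) : ℕ → (Fin 2 → ℕ) → Bool :=
  fun i v => u i (p ∘ v)

theorem comp_pair (p : ℕ → ℕ) (a b : ℕ) : p ∘ ![a, b] = ![p a, p b] := by
  funext j
  fin_cases j <;> rfl

theorem generic_tp {u : ℕ → (Fin 2 → ℕ) → Bool} (hu : Generic u) {p q : ℕ → ℕ}
    (hpq : ∀ n, p (q n) = n) (hqp : ∀ n, q (p n) = n) : Generic (tp u p) := by
  classical
  intro n A P Q r
  obtain ⟨m, hm, h⟩ := hu n (A.image p) (fun a => P (q a)) (fun a => Q (q a)) r
  refine ⟨q m, fun h' => hm ?_, fun i hi => ⟨?_, fun a ha => ⟨?_, ?_⟩⟩⟩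
  · rw [← hpq m]
    exact Finset.mem_image_of_mem _ h'
  · rw [tp, comp_pair, hpq]
    exact (h i hi).1
  · rw [tp, comp_pair, hpq, ((h i hi).2 (p a) (Finset.mem_image_of_mem _ ha)).1, hqp]
  · rw [tp, comp_pair, hpq, ((h i hi).2 (p a) (Finset.mem_image_of_mem _ ha)).2, hqp]

theorem emb_tp {u v : ℕ → (Fin 2 → ℕ) → Bool} {p q p' q' : ℕ → ℕ}
    (hpq : ∀ n, p (q n) = n) (hqp : ∀ n, q (p n) = n)
    (hpq' : ∀ n, p' (q' n) = n) (hqp' : ∀ n, q' (p' n) = n) :
    Emb (tp u p) (tp v p') ↔ Emb u v := by
  constructor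
  · rintro ⟨h, h1, h2⟩
    refine ⟨fun n => p' (h (q n)), ?_, ?_⟩
    · intro a b hab
      have h3 : h (q a) = h (q b) := by rw [← hqp' (h (q a)), ← hqp' (h (q b))]; exact congrArg q' hab
      have h4 := h1 h3
      rw [← hpq a, ← hpq b, h4]
    · intro i a b
      have := h2 i (q a) (q b)
      rw [tp, tp, comp_pair, comp_pair, hpq, hpq] at this
      exact this
  · rintro ⟨h, h1, h2⟩
    refine ⟨fun n => q' (h (p n)), ?_, ?_⟩
    · intro a b hab
      have h3 : h (p a) = h (p b) := by rw [← hpq' (h (p a)), ← hpq' (h (p b))]; exact congrArg p' hab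
      have h4 := h1 h3
      rw [← hqp a, ← hqp b, h4]
    · intro i a b
      rw [tp, tp, comp_pair, comp_pair, hpq', hpq']
      exact h2 i (p a) (p b)

section

variable {T : ℕ → (ℕ → Bool) → (ℕ → Bool) → (ℕ → ℕ) → Prop}

theorem generic_uu (x : ℕ → Bool) : Generic (uu T x) := by
  classical
  intro n A P Q r
  obtain ⟨m, hm, h⟩ := W.generic_c (bb (col T x)) n (A.image enum.symm) (fun a => P (enum a))
    (fun a => Q (enum a)) r
  refine ⟨enum m, fun h' => hm ?_, fun i hi => ⟨?_, fun a ha => ⟨?_, ?_⟩⟩⟩
  · rw [← enum.symm_apply_apply m]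
    exact Finset.mem_image_of_mem _ h'
  · have := (h i hi).1
    simp only [uu]
    simpa using this
  · have := ((h i hi).2 (enum.symm a) (Finset.mem_image_of_mem _ ha)).1
    simp only [uu]
    simpa using this
  · have := ((h i hi).2 (enum.symm a) (Finset.mem_image_of_mem _ ha)).2
    simp only [uu]
    simpa using this

/-- maps between the structures as maps between the sets of terms -/
theorem uu_iff {x y : ℕ → Bool} {h : ℕ → ℕ} :
    (∀ i a b, uu T y i ![h a, h b] = uu T x i ![a, b]) ↔
      ∀ i τ σ, W.c (bb (col T y)) (enum.symm (h (enum τ))) (enum.symm (h (enum σ))) i =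
        W.c (bb (col T x)) τ σ i := by
  constructor
  · intro h1 i τ σ
    have := h1 i (enum τ) (enum σ)
    simpa [uu] using this
  · intro h1 i a b
    have := h1 i (enum.symm a) (enum.symm b)
    simpa [uu] using this

theorem emb_uu (h1 : ∀ n u v s u' v' s', Agree n u u' → Agree n v v' → Agree n s s' →
      T n u v s → T n u' v' s') (h2 : ∀ n u s, T n u u s)
    (h3 : ∀ n u v w s t, T n u v s → T n v w t → T n u w (s + t)) {x y : ℕ → Bool} :
    Emb (uu T x) (uu T y) ↔ ∃ z, ∀ n, T n x y z := by
  constructor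
  · rintro ⟨h, hi, hh⟩
    rw [uu_iff] at hh
    let h' : W VV → W VV := fun τ => enum.symm (h (enum τ))
    have hi' : Function.Injective h' := fun a b hab => enum.injective (hi (enum.symm.injective hab))
    have hinfo : ∀ τ σ, W.info (bb (col T y)) (h' τ) (h' σ) = W.info (bb (col T x)) τ σ :=
      fun τ σ => W.info_of_c fun i => hh i τ σ
    obtain ⟨g, hg, hg'⟩ := W.exists_base hinfo
    refine exists_branch h1 h2 (g := g) ?_ hg'
    intro v w hvw
    have : h' (W.base v) = h' (W.base w) := by rw [hg, hg, hvw]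
    simpa using hi' this
  · rintro ⟨z, hz⟩
    obtain ⟨g, hi, hg⟩ := exists_emb h1 h3 hz
    refine ⟨fun n => enum (W.map g (enum.symm n)), ?_, ?_⟩
    · intro a b hab
      exact enum.symm.injective (W.map_injective hi (enum.injective hab))
    · rw [uu_iff]
      intro i τ σ
      simpa using W.c_map hi hg τ σ i

theorem rigid_uu {x y : ℕ → Bool} {h : ℕ → ℕ} (hi : Function.Injective h)
    (hs : Function.Surjective h) (hh : ∀ i a b, uu T y i ![h a, h b] = uu T x i ![a, b]) :
    x = y ∧ ∀ n, h n = n := by
  rw [uu_iff] at hh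
  let h' : W VV → W VV := fun τ => enum.symm (h (enum τ))
  have hi' : Function.Injective h' := fun a b hab => enum.injective (hi (enum.symm.injective hab))
  have hs' : Function.Surjective h' := by
    intro σ
    obtain ⟨n, hn⟩ := hs (enum σ)
    refine ⟨enum.symm n, ?_⟩
    show enum.symm (h (enum (enum.symm n))) = σ
    rw [enum.apply_symm_apply, hn, enum.symm_apply_apply]
  have hinfo : ∀ τ σ, W.info (bb (col T y)) (h' τ) (h' σ) = W.info (bb (col T x)) τ σ :=
    fun τ σ => W.info_of_c fun i => hh i τ σ
  obtain ⟨g, hg, hg'⟩ := W.exists_base hinfo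
  have hgi : Function.Injective g := by
    intro v w hvw
    have : h' (W.base v) = h' (W.base w) := by rw [hg, hg, hvw]
    simpa using hi' this
  have hgs : Function.Surjective g := by
    intro w
    obtain ⟨τ, hτ⟩ := hs' (W.base w)
    obtain ⟨v, rfl⟩ := W.base_of_image hinfo hτ
    refine ⟨v, ?_⟩
    rw [hg] at hτ
    simpa using hτ
  obtain ⟨rfl, hid⟩ := rigid hgi hgs hg'
  refine ⟨rfl, fun n => ?_⟩
  have h3 := W.eq_id hi' hinfo (fun v => by rw [hg, hid]) (enum.symm n)
  have h4 : enum.symm (h (enum (enum.symm n))) = enum.symm n := h3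
  rw [enum.apply_symm_apply] at h4
  exact enum.symm.injective h4

/-! ### Measurability -/

theorem measurableSet_T (h1 : ∀ n u v s u' v' s', Agree n u u' → Agree n v v' → Agree n s s' →
      T n u v s → T n u' v' s') (n : ℕ) (u : ℕ → Bool) (s : ℕ → ℕ) :
    MeasurableSet {y : ℕ → Bool | T n u y s} := by
  let r : (ℕ → Bool) → Fin n → Bool := fun y i => y i
  have hr : Measurable r := measurable_pi_lambda _ fun i => measurable_pi_apply _
  have : {y : ℕ → Bool | T n u y s} = r ⁻¹' (r '' {y : ℕ → Bool | T n u y s}) := by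
    ext y
    constructor
    · intro h
      exact ⟨y, h, rfl⟩
    · rintro ⟨y', h, h'⟩
      refine h1 _ _ _ _ _ _ _ (Agree.refl _ _) (fun i hi => ?_) (Agree.refl _ _) h
      exact congrFun h' ⟨i, hi⟩
  rw [this]
  exact hr (Set.toFinite _).measurableSet

theorem measurable_col (h1 : ∀ n u v s u' v' s', Agree n u u' → Agree n v v' → Agree n s s' →
      T n u v s → T n u' v' s') (u : List Bool) (s : List ℕ) (n : ℕ) :
    Measurable fun x => col T x u s n := by
  classical
  by_cases e : u = [true] ∧ s = []
  · simp only [col, if_pos e, code]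
    split_ifs
    · exact measurable_const
    · exact measurable_const
    · exact measurable_pi_apply _
  · simp only [col, if_neg e]
    refine measurable_to_bool ?_
    by_cases h : n = 0 ∧ u.length = s.length
    · have : (fun x => decide (n = 0 ∧ Act T x u s)) ⁻¹' {true} =
          {y : ℕ → Bool | T s.length (eb u) y (ev s)} := by
        ext y
        simp [Act, h.1, h.2]
      rw [this]
      exact measurableSet_T h1 _ _ _
    · have : (fun x => decide (n = 0 ∧ Act T x u s)) ⁻¹' {true} = ∅ := by
        ext y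
        refine ⟨fun h' => ?_, fun h' => h'.elim⟩
        have h'' := of_decide_eq_true h'
        exact absurd ⟨h''.1, h''.2.1⟩ h
      rw [this]
      exact MeasurableSet.empty

theorem measurable_c (h1 : ∀ n u v s u' v' s', Agree n u u' → Agree n v v' → Agree n s s' →
      T n u v s → T n u' v' s') (τ σ : W VV) (i : ℕ) :
    Measurable fun x => W.c (bb (col T x)) τ σ i := by
  classical
  by_cases h : ∃ m, τ = W.base (.inr m) ∧ σ = W.base (.inr m)
  · obtain ⟨m, rfl, rfl⟩ := h
    have : (fun x => W.c (bb (col T x)) (W.base (.inr m)) (W.base (.inr m)) i) =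
        (fun d : Bool => W.bit (W.word (W.base (.inr m)) (W.base (.inr m) : W VV))
          (Encodable.encode (Sum.inl (5, m.1, [d]) : Inf ⊕ Inf)) i) ∘
          fun x => col T x m.1 m.2.1 m.2.2 := by
      funext x
      simp [W.c, W.info, bb]
    rw [this]
    exact (measurable_of_countable _).comp (measurable_col h1 _ _ _)
  · have : (fun x => W.c (bb (col T x)) τ σ i) =
        fun _ => W.c (bb (col T fun _ => false)) τ σ i := by
      funext x
      rw [W.c, W.c]
      congr 2
      cases τ with
      | base v =>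
        cases σ with
        | base w =>
          rcases v with s | m
          · rcases w with t | m'
            · rfl
            · rfl
          · rcases w with t | m'
            · rfl
            · have hne : m ≠ m' := by
                rintro rfl
                exact h ⟨m, rfl, rfl⟩
              simp only [W.info, bb, if_neg hne]
        | nil u => rfl
        | cons a p q t => rfl
      | nil u => rfl
      | cons a p q t => rfl
    rw [this]
    exact measurable_const

end

/-- **Every analytic quasi-order is Borel bireducible with elementary embeddability on an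
isomorphism-invariant Borel set of countable structures.** -/
theorem main (X : Type) [TopologicalSpace X] [PolishSpace X] [MeasurableSpace X] [BorelSpace X]
    (R : X → X → Prop) (hr : ∀ x, R x x) (ht : ∀ x y z, R x y → R y z → R x z)
    (hR : MeasureTheory.AnalyticSet {p : X × X | R p.1 p.2}) [Nonempty X] :
    ∃ B : Set (ℕ → (Fin 2 → ℕ) → Bool), MeasurableSet B ∧
      (∀ (σ : Equiv.Perm ℕ) (u : ℕ → (Fin 2 → ℕ) → Bool),
        u ∈ B ↔ (fun i v => u i (σ ∘ v)) ∈ B) ∧
      (∃ f : X → (ℕ → (Fin 2 → ℕ) → Bool), Measurable f ∧ (∀ x, f x ∈ B) ∧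
        ∀ x y, R x y ↔ Nonempty (@FirstOrder.Language.ElementaryEmbedding LL ℕ ℕ
          (strOf (f x)) (strOf (f y)))) ∧
      (∃ g : B → X, Measurable g ∧
        ∀ u v : B, Nonempty (@FirstOrder.Language.ElementaryEmbedding LL ℕ ℕ
          (strOf u.1) (strOf v.1)) ↔ R (g u) (g v)) := by
  obtain ⟨e, he, hinj, T, h1, h2, h3, h4⟩ := exists_rep R hr ht hR
  -- permutations
  let P : Set ((ℕ → ℕ) × (ℕ → ℕ)) := {r | ∀ n, r.1 (r.2 n) = n ∧ r.2 (r.1 n) = n}
  have hP : MeasurableSet P := by
    have h5 : P = ⋂ n, ({r : (ℕ → ℕ) × (ℕ → ℕ) | r.1 (r.2 n) = n} ∩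
        {r : (ℕ → ℕ) × (ℕ → ℕ) | r.2 (r.1 n) = n}) := by
      ext r
      simp [P]
    rw [h5]
    have h6 : Measurable fun q : (ℕ → ℕ) × ℕ => q.1 q.2 :=
      measurable_from_prod_countable_left fun n => measurable_pi_apply n
    refine MeasurableSet.iInter fun n => MeasurableSet.inter ?_ ?_
    · have h7 : Measurable fun r : (ℕ → ℕ) × (ℕ → ℕ) => r.1 (r.2 n) :=
        h6.comp (measurable_fst.prodMk ((measurable_pi_apply n).comp measurable_snd))
      exact h7 (measurableSet_singleton n)
    · have h7 : Measurable fun r : (ℕ → ℕ) × (ℕ → ℕ) => r.2 (r.1 n) :=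
        h6.comp (measurable_snd.prodMk ((measurable_pi_apply n).comp measurable_fst))
      exact h7 (measurableSet_singleton n)
  haveI : StandardBorelSpace P := hP.standardBorel
  let Φ : X × P → (ℕ → (Fin 2 → ℕ) → Bool) := fun r => tp (uu T (e r.1)) r.2.1.1
  have hΦm : Measurable Φ := by
    refine measurable_pi_lambda _ fun i => measurable_pi_lambda _ fun v => ?_
    have h5 : Measurable fun r : X × (ℕ × ℕ) =>
        W.c (bb (col T (e r.1))) (enum.symm r.2.1) (enum.symm r.2.2) i :=
      measurable_from_prod_countable_left fun ab =>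
        (measurable_c h1 (enum.symm ab.1) (enum.symm ab.2) i).comp he
    have h6 : Measurable fun r : X × P => ((r.1, (r.2.1.1 (v 0), r.2.1.1 (v 1))) : X × (ℕ × ℕ)) := by
      have h7 : Measurable fun r : X × P => r.2.1.1 :=
        measurable_fst.comp (measurable_subtype_coe.comp measurable_snd)
      exact measurable_fst.prodMk (((measurable_pi_apply _).comp h7).prodMk
        ((measurable_pi_apply _).comp h7))
    exact h5.comp h6
  have hΦi : Function.Injective Φ := by
    rintro ⟨x, ⟨⟨p, q⟩, hpq0⟩⟩ ⟨y, ⟨⟨p', q'⟩, hpq0'⟩⟩ h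
    have hpq : ∀ n, p (q n) = n ∧ q (p n) = n := hpq0
    have hpq' : ∀ n, p' (q' n) = n ∧ q' (p' n) = n := hpq0'
    have h5 : ∀ i a b, uu T (e y) i ![p' (q a), p' (q b)] = uu T (e x) i ![a, b] := by
      intro i a b
      have h6 := congrFun (congrFun h i) ![q a, q b]
      simp only [Φ, tp, comp_pair] at h6
      rw [(hpq a).1, (hpq b).1] at h6
      exact h6.symm
    have h7 : Function.Injective fun n => p' (q n) := by
      intro a b hab
      have h8 : q a = q b := by
        rw [← (hpq' (q a)).2, ← (hpq' (q b)).2]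
        exact congrArg q' hab
      rw [← (hpq a).1, ← (hpq b).1]
      exact congrArg p h8
    have h8 : Function.Surjective fun n => p' (q n) := by
      intro n
      refine ⟨p (q' n), ?_⟩
      show p' (q (p (q' n))) = n
      rw [(hpq (q' n)).2, (hpq' n).1]
    obtain ⟨h9, h10⟩ := rigid_uu (h := fun n => p' (q n)) h7 h8 h5
    have hxy := hinj h9
    subst hxy
    have hp : p = p' := by
      funext n
      have h11 : p' (q (p n)) = p n := h10 (p n)
      rw [(hpq n).2] at h11
      exact h11.symm
    subst hp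
    have hq : q = q' := by
      funext n
      rw [← (hpq' (q n)).2, (hpq n).1]
    subst hq
    rfl
  have hemb : MeasurableEmbedding Φ := hΦm.measurableEmbedding hΦi
  have hgen : ∀ r : X × P, Generic (Φ r) := fun r =>
    generic_tp (generic_uu _) (fun n => (r.2.2 n).1) fun n => (r.2.2 n).2
  have hrel : ∀ r r' : X × P, Nonempty (@FirstOrder.Language.ElementaryEmbedding LL ℕ ℕ
      (strOf (Φ r)) (strOf (Φ r'))) ↔ R r.1 r'.1 := by
    intro r r'
    rw [emb_iff (hgen r) (hgen r'), h4]
    exact (emb_tp (fun n => (r.2.2 n).1) (fun n => (r.2.2 n).2) (fun n => (r'.2.2 n).1)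
      fun n => (r'.2.2 n).2).trans (emb_uu h1 h2 h3)
  have hact : ∀ (σ : Equiv.Perm ℕ) (u : ℕ → (Fin 2 → ℕ) → Bool),
      u ∈ Set.range Φ → (fun i v => u i (σ ∘ v)) ∈ Set.range Φ := by
    rintro σ u ⟨⟨x, ⟨⟨p, q⟩, hpq0⟩⟩, rfl⟩
    have hpq : ∀ n, p (q n) = n ∧ q (p n) = n := hpq0
    refine ⟨⟨x, ⟨⟨p ∘ σ, σ.symm ∘ q⟩, fun n => ⟨?_, ?_⟩⟩⟩, rfl⟩
    · simp only [Function.comp_apply, Equiv.apply_symm_apply]
      exact (hpq n).1
    · simp only [Function.comp_apply]
      rw [(hpq (σ n)).2, Equiv.symm_apply_apply]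
  let one : P := ⟨(id, id), fun n => ⟨rfl, rfl⟩⟩
  refine ⟨Set.range Φ, hemb.measurableSet_range, fun σ u => ⟨hact σ u, fun h => ?_⟩,
    ⟨fun x => Φ (x, one), hΦm.comp (measurable_id.prodMk measurable_const),
      fun x => ⟨_, rfl⟩, fun x y => (hrel (x, one) (y, one)).symm⟩,
    ⟨fun b => (hemb.equivRange.symm b).1, measurable_fst.comp hemb.equivRange.symm.measurable,
      ?_⟩⟩
  · have h5 := hact σ.symm _ h
    have h6 : (fun i v => (fun i v => u i (σ ∘ v)) i (σ.symm ∘ v)) = u := by
      funext i v
      show u i (σ ∘ (σ.symm ∘ v)) = u i v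
      congr 1
      funext j
      simp
    rw [h6] at h5
    exact h5
  · intro u v
    have hval : ∀ b : Set.range Φ, Φ (hemb.equivRange.symm b) = b.1 := by
      rintro ⟨_, ⟨r, rfl⟩⟩
      rw [hemb.equivRange_symm_apply_mk]
    have hu := hval u
    have hv := hval v
    have := hrel (hemb.equivRange.symm u) (hemb.equivRange.symm v)
    rw [hu, hv] at this
    exact this

end Pool.Agent.NH88.EE
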