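import Mathlib

/-!
# A representation of analytic quasi-orders

Every analytic quasi-order `R` on a Polish space, transported to Cantor space, is the projection of
the branches of a family `S n u v s` of relations (depending on the first `n` values of `u`, `v`,
`s` only) which are reflexive and satisfy `S n u v s → S n v w t → S n u w (s + t)`.
-/

set_option autoImplicit false

open Set Filter MeasureTheory Topology

namespace Pool.Agent.NH88.EE

/-- the sequences agree below `n` -/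
def Agree {β : Type} (n : ℕ) (u v : ℕ → β) : Prop := ∀ i < n, u i = v i

theorem Agree.refl {β : Type} (n : ℕ) (u : ℕ → β) : Agree n u u := fun _ _ => rfl

theorem Agree.symm {β : Type} {n : ℕ} {u v : ℕ → β} (h : Agree n u v) : Agree n v u :=
  fun i hi => (h i hi).symm

theorem Agree.trans {β : Type} {n : ℕ} {u v w : ℕ → β} (h : Agree n u v) (h' : Agree n v w) :
    Agree n u w := fun i hi => (h i hi).trans (h' i hi)

theorem Agree.mono {β : Type} {m n : ℕ} {u v : ℕ → β} (h : Agree n u v) (hm : m ≤ n) :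
    Agree m u v := fun i hi => h i (hi.trans_le hm)

/-- chains of `k` steps -/
inductive Ch (θ : (ℕ → ℕ) → (ℕ → Bool) × (ℕ → Bool)) (n : ℕ) :
    ℕ → (ℕ → Bool) → (ℕ → Bool) → (ℕ → ℕ) → Prop
  | nil (u v : ℕ → Bool) (s : ℕ → ℕ) (h : Agree n u v) : Ch θ n 0 u v s
  | cons (k : ℕ) (u w : ℕ → Bool) (s z t : ℕ → ℕ) (h : Agree n u (θ z).1)
      (h' : Ch θ n k (θ z).2 w t) (hs : ∀ j < n, z j + t j ≤ s j) : Ch θ n (k + 1) u w s

variable {θ : (ℕ → ℕ) → (ℕ → Bool) × (ℕ → Bool)}

theorem Ch.congr {n k : ℕ} {u v : ℕ → Bool} {s : ℕ → ℕ} (h : Ch θ n k u v s) :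
    ∀ {u' v' : ℕ → Bool} {s' : ℕ → ℕ}, Agree n u u' → Agree n v v' → (∀ j < n, s j ≤ s' j) →
      Ch θ n k u' v' s' := by
  induction h with
  | nil u v s h =>
    intro u' v' s' hu hv _
    exact Ch.nil _ _ _ (hu.symm.trans (h.trans hv))
  | cons k u w s z t h h' hs ih =>
    intro u' v' s' hu hv hs'
    exact Ch.cons k _ _ _ z t (hu.symm.trans h) (ih (Agree.refl _ _) hv fun _ _ => le_rfl)
      fun j hj => (hs j hj).trans (hs' j hj)

theorem Ch.anti {m n k : ℕ} {u v : ℕ → Bool} {s : ℕ → ℕ} (h : Ch θ n k u v s) (hm : m ≤ n) :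
    Ch θ m k u v s := by
  induction h with
  | nil u v s h => exact Ch.nil _ _ _ (h.mono hm)
  | cons k u w s z t h h' hs ih =>
    exact Ch.cons k _ _ _ z t (h.mono hm) ih fun j hj => hs j (hj.trans_le hm)

theorem Ch.append {n k l : ℕ} {u v w : ℕ → Bool} {s t : ℕ → ℕ} (h : Ch θ n k u v s) :
    Ch θ n l v w t → Ch θ n (k + l) u w (s + t) := by
  induction h with
  | nil u v s h =>
    intro h2
    rw [Nat.zero_add]
    exact h2.congr h.symm (Agree.refl _ _) fun j _ => by simp
  | cons k u w' s z t' h h' hs ih =>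
    intro h2
    have := ih h2
    rw [show k + 1 + l = (k + l) + 1 by ring]
    refine Ch.cons (k + l) _ _ _ z (t' + t) h this fun j hj => ?_
    have := hs j hj
    simp only [Pi.add_apply]
    omega

/-- the family of relations -/
def S (θ : (ℕ → ℕ) → (ℕ → Bool) × (ℕ → Bool)) (n : ℕ) (u v : ℕ → Bool) (s : ℕ → ℕ) : Prop :=
  n = 0 ∨ ∃ k ≤ s 0, Ch θ n k u v s

theorem S.congr {n : ℕ} {u v u' v' : ℕ → Bool} {s s' : ℕ → ℕ} (h : S θ n u v s)
    (hu : Agree n u u') (hv : Agree n v v') (hs : Agree n s s') : S θ n u' v' s' := by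
  rcases h with h | ⟨k, hk, h⟩
  · exact Or.inl h
  · rcases Nat.eq_zero_or_pos n with h0 | h0
    · exact Or.inl h0
    · refine Or.inr ⟨k, by rw [← hs 0 h0]; exact hk, h.congr hu hv fun j hj => (hs j hj).le⟩

theorem S.refl (n : ℕ) (u : ℕ → Bool) (s : ℕ → ℕ) : S θ n u u s :=
  Or.inr ⟨0, Nat.zero_le _, Ch.nil _ _ _ (Agree.refl _ _)⟩

theorem S.comp {n : ℕ} {u v w : ℕ → Bool} {s t : ℕ → ℕ} (h : S θ n u v s) (h' : S θ n v w t) :
    S θ n u w (s + t) := by
  rcases h with h | ⟨k, hk, h⟩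
  · exact Or.inl h
  rcases h' with h' | ⟨l, hl, h'⟩
  · exact Or.inl h'
  exact Or.inr ⟨k + l, by simp only [Pi.add_apply]; omega, h.append h'⟩

/-- ultrafilter limits of sequences of natural numbers with bounded coordinates -/
theorem exists_ultraLimit (z : ℕ → ℕ → ℕ) (b : ℕ → ℕ) (hz : ∀ n, ∀ j < n, z n j ≤ b j) :
    ∃ ζ : ℕ → ℕ, ∀ j, ∀ᶠ n in (hyperfilter ℕ : Filter ℕ), z n j = ζ j := by
  have h : ∀ j, ∃ a, ∀ᶠ n in (hyperfilter ℕ : Filter ℕ), z n j = a := by
    intro j
    have h1 : ∀ᶠ n in (hyperfilter ℕ : Filter ℕ), z n j ≤ b j := by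
      have h2 : ∀ᶠ n in (cofinite : Filter ℕ), z n j ≤ b j := by
        rw [Nat.cofinite_eq_atTop]
        filter_upwards [eventually_gt_atTop j] with n hn using hz n j hn
      exact hyperfilter_le_cofinite h2
    have h3 : (⋃ a ∈ Set.Iic (b j), {n | z n j = a}) ∈ hyperfilter ℕ := by
      filter_upwards [h1] with n hn
      simp only [mem_iUnion, mem_setOf_eq]
      exact ⟨z n j, hn, rfl⟩
    rw [Ultrafilter.finite_biUnion_mem_iff (Set.finite_Iic _)] at h3
    obtain ⟨a, -, ha⟩ := h3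
    exact ⟨a, ha⟩
  choose ζ hζ using h
  exact ⟨ζ, hζ⟩

theorem eventually_agree {β : Type} {F : Filter ℕ} (z : ℕ → ℕ → β) (ζ : ℕ → β)
    (h : ∀ j, ∀ᶠ n in F, z n j = ζ j) (m : ℕ) : ∀ᶠ n in F, Agree m (z n) ζ := by
  have : ∀ᶠ n in F, ∀ j ∈ Set.Iio m, z n j = ζ j := by
    rw [eventually_all_finite (Set.finite_Iio m)]
    exact fun j _ => h j
  filter_upwards [this] with n hn j hj using hn j hj

theorem tendsto_of_agree {β : Type} [TopologicalSpace β] {F : Filter ℕ} (z : ℕ → ℕ → β)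
    (ζ : ℕ → β) (h : ∀ j, ∀ᶠ n in F, z n j = ζ j) : Tendsto z F (𝓝 ζ) := by
  rw [tendsto_pi_nhds]
  intro j
  exact (tendsto_const_nhds).congr' ((h j).mono fun n hn => hn.symm)

/-- The main lemma: branches give chains of actual points. -/
theorem rel_of_branch {X : Type} (R : X → X → Prop) (hr : ∀ x, R x x)
    (ht : ∀ x y z, R x y → R y z → R x z) (e : X → ℕ → Bool) (he : Function.Injective e)
    (hc : Continuous θ) (hθ : ∀ z, ∃ x y, R x y ∧ θ z = (e x, e y)) (k : ℕ) :
    ∀ (a b : X) (z : ℕ → ℕ), (∀ n, Ch θ n k (e a) (e b) z) → R a b := by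
  induction k with
  | zero =>
    intro a b z h
    have : e a = e b := by
      funext i
      cases h (i + 1) with
      | nil _ _ _ h => exact h i (Nat.lt_succ_self i)
    rw [he this]
    exact hr b
  | succ k ih =>
    intro a b z h
    have h1 : ∀ n, ∃ zn tn : ℕ → ℕ, Agree n (e a) (θ zn).1 ∧ Ch θ n k (θ zn).2 (e b) tn ∧
        ∀ j < n, zn j + tn j ≤ z j := by
      intro n
      cases h n with
      | cons _ _ _ _ zn tn h1 h2 h3 => exact ⟨zn, tn, h1, h2, h3⟩
    choose zz tt h2 h3 h4 using h1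
    obtain ⟨ζ, hζ⟩ := exists_ultraLimit zz z fun n j hj => by have := h4 n j hj; omega
    obtain ⟨τ, hτ⟩ := exists_ultraLimit tt z fun n j hj => by have := h4 n j hj; omega
    have hlim : Tendsto (fun n => θ (zz n)) (hyperfilter ℕ : Filter ℕ) (𝓝 (θ ζ)) :=
      (hc.tendsto ζ).comp (tendsto_of_agree zz ζ hζ)
    have hbool : ∀ (p : (ℕ → Bool) × (ℕ → Bool) → ℕ → Bool), Continuous p → ∀ j,
        ∀ᶠ n in (hyperfilter ℕ : Filter ℕ), p (θ (zz n)) j = p (θ ζ) j := by
      intro p hp j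
      have h5 : Tendsto (fun n => p (θ (zz n)) j) (hyperfilter ℕ : Filter ℕ)
          (𝓝 (p (θ ζ) j)) := ((continuous_apply j).comp hp).continuousAt.tendsto.comp hlim
      have h6 := h5 (IsOpen.mem_nhds (isOpen_discrete {p (θ ζ) j}) rfl)
      filter_upwards [h6] with n hn using hn
    obtain ⟨a', b', hab, hθζ⟩ := hθ ζ
    have h7 : e a = e a' := by
      funext i
      have h8 : ∀ᶠ n in (hyperfilter ℕ : Filter ℕ), (θ (zz n)).1 i = (θ ζ).1 i :=
        hbool Prod.fst continuous_fst i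
      have h9 : ∀ᶠ n in (hyperfilter ℕ : Filter ℕ), i < n :=
        hyperfilter_le_cofinite (by rw [Nat.cofinite_eq_atTop]; exact eventually_gt_atTop i)
      obtain ⟨n, hn, hn'⟩ := (h8.and h9).exists
      rw [h2 n i hn', hn, hθζ]
    have h10 : a = a' := he h7
    subst h10
    refine ht a b' b hab (ih b' b τ fun m => ?_)
    have h11 := eventually_agree (fun n => (θ (zz n)).2) (θ ζ).2
      (fun j => hbool Prod.snd continuous_snd j) m
    have h12 := eventually_agree tt τ hτ m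
    have h9 : ∀ᶠ n in (hyperfilter ℕ : Filter ℕ), m ≤ n :=
      hyperfilter_le_cofinite (by rw [Nat.cofinite_eq_atTop]; exact eventually_ge_atTop m)
    obtain ⟨n, hn1, hn2, hn3⟩ := (h11.and (h12.and h9)).exists
    have h13 := ((h3 n).anti hn3).congr hn1 (Agree.refl m (e b)) fun j hj => (hn2 j hj).le
    rw [hθζ] at h13
    exact h13

/-- **Representation of analytic quasi-orders.** -/
theorem exists_rep {X : Type} [TopologicalSpace X] [PolishSpace X] [MeasurableSpace X]
    [BorelSpace X] (R : X → X → Prop) (hr : ∀ x, R x x)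
    (ht : ∀ x y z, R x y → R y z → R x z) (hR : AnalyticSet {p : X × X | R p.1 p.2})
    [Nonempty X] :
    ∃ e : X → ℕ → Bool, Measurable e ∧ Function.Injective e ∧
      ∃ T : ℕ → (ℕ → Bool) → (ℕ → Bool) → (ℕ → ℕ) → Prop,
        (∀ n u v s u' v' s', Agree n u u' → Agree n v v' → Agree n s s' → T n u v s →
          T n u' v' s') ∧
        (∀ n u s, T n u u s) ∧
        (∀ n u v w s t, T n u v s → T n v w t → T n u w (s + t)) ∧
        ∀ x y, R x y ↔ ∃ z, ∀ n, T n (e x) (e y) z := by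
  obtain ⟨e, he, hinj⟩ := MeasurableSpace.measurable_injection_nat_bool_of_countablySeparated X
  have hR' : AnalyticSet ((Prod.map e e) '' {p : X × X | R p.1 p.2}) := by
    rw [AnalyticSet] at hR
    rcases hR with h | ⟨f, hf, hf'⟩
    · rw [h, image_empty]
      exact analyticSet_empty
    · have h1 : (Prod.map e e) '' {p : X × X | R p.1 p.2} =
          ((Prod.map e e) ∘ f) '' (Set.univ : Set (ℕ → ℕ)) := by
        rw [image_univ, range_comp, hf']
      rw [h1]
      exact MeasurableSet.univ.analyticSet_image ((he.prodMap he).comp hf.measurable)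
  rw [AnalyticSet] at hR'
  rcases hR' with h | ⟨θ, hc, hθ⟩
  · exfalso
    obtain ⟨x⟩ := ‹Nonempty X›
    have : (e x, e x) ∈ (Prod.map e e) '' {p : X × X | R p.1 p.2} := ⟨(x, x), hr x, rfl⟩
    rw [h] at this
    exact this
  have hθ1 : ∀ z, ∃ x y, R x y ∧ θ z = (e x, e y) := by
    intro z
    have : θ z ∈ (Prod.map e e) '' {p : X × X | R p.1 p.2} := by rw [← hθ]; exact mem_range_self z
    obtain ⟨p, hp, hp'⟩ := this
    exact ⟨p.1, p.2, hp, hp'.symm⟩
  refine ⟨e, he, hinj, S θ, fun n u v s u' v' s' hu hv hs h => h.congr hu hv hs,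
    fun n u s => S.refl n u s, fun n u v w s t h h' => h.comp h', fun x y => ⟨?_, ?_⟩⟩
  · intro h
    have : (e x, e y) ∈ range θ := by rw [hθ]; exact ⟨(x, y), h, rfl⟩
    obtain ⟨z, hz⟩ := this
    refine ⟨fun i => z i + 1, fun n => Or.inr ⟨1, by simp, ?_⟩⟩
    refine Ch.cons 0 _ _ _ z 0 (by rw [hz]; exact Agree.refl _ _)
      (Ch.nil _ _ _ (by rw [hz]; exact Agree.refl _ _)) fun j _ => by simp
  · rintro ⟨z, hz⟩
    -- a number of steps which works for all `n`
    have h1 : ∃ k, ∀ n, Ch θ n k (e x) (e y) z := by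
      by_contra hcon
      push Not at hcon
      choose N hN using hcon
      let M := (Finset.range (z 0 + 1)).sup N + 1
      rcases hz M with h0 | ⟨k, hk, h2⟩
      · simp [M] at h0
      · refine hN k (h2.anti ?_)
        have : N k ≤ (Finset.range (z 0 + 1)).sup N :=
          Finset.le_sup (f := N) (Finset.mem_range.mpr (by omega))
        omega
    obtain ⟨k, hk⟩ := h1
    exact rel_of_branch R hr ht e hinj hc hθ1 k x y z hk

end Pool.Agent.NH88.EE
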